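import Pool.Agent.H8.UG.TargetsF
import Pool.Agent.H35.UB.FCL

/-!
# MP_404602_al, row FGC of ubg: closure functions for function fields (helper10)
-/

open CategoryTheory Polynomial

set_option autoImplicit false

namespace Pool.Agent.H10.UG

open Pool.Agent.H8.UB Pool.Agent.H56.UDs Pool.Agent.H8.UG Pool.Agent.H35.UB

section

variable {n : ℕ} {K k : Type} [Field K] [Field k] [Algebra K k] (s : SC n k)

/-- the scalars of `K` -/
noncomputable def sc : K →+* Al s := (algebraMap k (Al s)).comp (algebraMap K k)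

theorem coeff_fin {K k : Type} [Field K] (t : Finset k) (p : MvPolynomial (t : Set k) K) :
    (Set.range p.coeff).Finite := by
  classical
  refine (((p.support.image p.coeff) ∪ {0} : Finset K).finite_toSet).subset ?_
  rintro _ ⟨m, rfl⟩
  rw [Finset.mem_coe, Finset.mem_union, Finset.mem_image, Finset.mem_singleton]
  by_cases h : m ∈ p.support
  · exact Or.inl ⟨m, h, rfl⟩
  · exact Or.inr (MvPolynomial.notMem_support_iff.1 h)

variable (t : Finset k) (P Q : k → MvPolynomial (t : Set k) K)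

/-- the closure function -/
noncomputable def Pg (F : Set (Al s)) : Set (Al s) :=
  ((Set.range (eb s) ∪ ⋃ i : Fin n, (fun x : Al s => algebraMap k (Al s) (x i)) '' F) ∪
  ((fun a : k => algebraMap k (Al s) a⁻¹) '' (algebraMap k (Al s) ⁻¹' F) ∪
    algebraMap k (Al s) '' (t : Set k))) ∪
  ((⋃ a ∈ algebraMap k (Al s) ⁻¹' F, (sc (K := K) s) '' (Set.range (P a).coeff ∪
    Set.range (Q a).coeff)) ∪
    ⋃ p ∈ {p : K[X] | ∀ j, p.coeff j ∈ (sc (K := K) s) ⁻¹' F},
      (sc (K := K) s) '' {r | p ≠ 0 ∧ p.IsRoot r})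

theorem Pg_CP (hn : 0 < n) : CP (Pg s t P Q) := by
  classical
  intro A hA
  have := al_nontrivial s hn
  have hinj : Function.Injective (algebraMap k (Al s)) := (algebraMap k (Al s)).injective
  have hinj' : Function.Injective (sc (K := K) s) := (sc (K := K) s).injective
  have hC : (algebraMap k (Al s) ⁻¹' A).Countable := hA.preimage_of_injOn hinj.injOn
  have hC' : ((sc (K := K) s) ⁻¹' A).Countable := hA.preimage_of_injOn hinj'.injOn
  refine (((Set.countable_range _).union (Set.countable_iUnion fun i => hA.image _)).union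
    ((hC.image _).union (t.countable_toSet.image _))).union
    ((hC.biUnion fun a _ => Set.Countable.image
      ((coeff_fin t (P a)).countable.union (coeff_fin t (Q a)).countable) _).union
      ((poly_countable _ hC').biUnion fun p _ => Set.Countable.image ?_ _))
  by_cases hP : p = 0
  · have : {r : K | p ≠ 0 ∧ p.IsRoot r} = ∅ := by
      ext r
      simp [hP]
    rw [this]
    exact Set.countable_empty
  · refine (Set.Finite.subset (p.roots.toFinset.finite_toSet) ?_).countable
    intro r hr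
    rw [Finset.mem_coe, Multiset.mem_toFinset, mem_roots hP]
    exact hr.2

end

theorem pf_FGC : G_FGC := by
  intro K k _ _ _ _ hfg n s hn
  classical
  obtain ⟨t, ht⟩ := hfg
  have hPQ : ∀ a : k, ∃ P Q : MvPolynomial (t : Set k) K,
      a = MvPolynomial.aeval Subtype.val P / MvPolynomial.aeval Subtype.val Q := by
    intro a
    have h1 : a ∈ IntermediateField.adjoin K (t : Set k) := by
      rw [ht]
      exact IntermediateField.mem_top
    exact (IntermediateField.mem_adjoin_iff K a).1 h1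
  choose P Q hPQ using hPQ
  have hnt := al_nontrivial s hn
  have hinj : Function.Injective (algebraMap k (Al s)) := (algebraMap k (Al s)).injective
  refine ⟨Pg s t P Q, Pg_CP s t P Q hn, fun S₀ hS₀ hcl => ?_⟩
  have hsing : ∀ x ∈ S₀, Pg s t P Q {x} ⊆ S₀ := by
    intro x hx
    have := hcl {x} (by
      intro y hy
      rw [Finset.coe_singleton, Set.mem_singleton_iff] at hy
      rw [hy]
      exact hx)
    rwa [Finset.coe_singleton] at this
  have hcoord : ∀ x ∈ S₀, ∀ l, algebraMap k (Al s) (x l) ∈ S₀ := by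
    intro x hx l
    exact hsing x hx (Or.inl (Or.inl (Or.inr (Set.mem_iUnion.2 ⟨l, x, rfl, rfl⟩))))
  have heb : ∀ i, eb s i ∈ S₀ := fun i =>
    hsing 0 S₀.zero_mem (Or.inl (Or.inl (Or.inl ⟨i, rfl⟩)))
  let k₀ : Subfield k :=
    { S₀.comap (algebraMap k (Al s)) with
      inv_mem' := by
        intro a ha
        exact hsing _ ha (Or.inl (Or.inr (Or.inl ⟨a, rfl, rfl⟩))) }
  have hk₀ : ∀ a : k, a ∈ k₀ ↔ algebraMap k (Al s) a ∈ S₀ := fun a => Iff.rfl
  let K₀ : Subfield K := k₀.comap (algebraMap K k)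
  have hK₀ : ∀ c : K, c ∈ K₀ ↔ sc (K := K) s c ∈ S₀ := fun a => Iff.rfl
  have htk : ∀ x ∈ t, x ∈ k₀ := fun x hx =>
    hsing 0 S₀.zero_mem (Or.inl (Or.inr (Or.inr ⟨x, hx, rfl⟩)))
  have hPc : ∀ a ∈ k₀, ∀ m, (P a).coeff m ∈ K₀ := fun a ha m =>
    hsing _ ha (Or.inr (Or.inl (Set.mem_iUnion₂.2 ⟨a, rfl, (P a).coeff m, Or.inl ⟨m, rfl⟩, rfl⟩)))
  have hQc : ∀ a ∈ k₀, ∀ m, (Q a).coeff m ∈ K₀ := fun a ha m =>
    hsing _ ha (Or.inr (Or.inl (Set.mem_iUnion₂.2 ⟨a, rfl, (Q a).coeff m, Or.inr ⟨m, rfl⟩, rfl⟩)))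
  have hcl' : IsAlgClosed K₀ := by
    apply IsAlgClosed.of_exists_root
    intro p hp hirr
    have hdeg : (p.map K₀.subtype).degree ≠ 0 := by
      rw [degree_map]
      exact (degree_pos_of_irreducible hirr).ne'
    obtain ⟨r, hr⟩ := IsAlgClosed.exists_root (p.map K₀.subtype) hdeg
    have hne : p.map K₀.subtype ≠ 0 := (Polynomial.map_ne_zero_iff K₀.subtype.injective).2 hp.ne_zero
    let F : Finset (Al s) := insert 0 ((Finset.range (p.natDegree + 1)).image
      fun j => sc (K := K) s (p.coeff j : K))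
    have hF : (F : Set (Al s)) ⊆ S₀ := by
      intro x hx
      rw [Finset.mem_coe, Finset.mem_insert, Finset.mem_image] at hx
      rcases hx with rfl | ⟨j, _, rfl⟩
      · exact S₀.zero_mem
      · exact (p.coeff j).2
    have hcoef : ∀ j, (p.map K₀.subtype).coeff j ∈ (sc (K := K) s) ⁻¹' (F : Set (Al s)) := by
      intro j
      rw [coeff_map]
      change sc (K := K) s (p.coeff j : K) ∈ (F : Set (Al s))
      rw [Finset.mem_coe, Finset.mem_insert, Finset.mem_image]
      by_cases hj : j ≤ p.natDegree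
      · exact Or.inr ⟨j, Finset.mem_range.2 (by omega), rfl⟩
      · left
        rw [coeff_eq_zero_of_natDegree_lt (not_le.1 hj)]
        simp
    have hrS : sc (K := K) s r ∈ S₀ := hcl F hF (Or.inr (Or.inr
      (Set.mem_iUnion₂.2 ⟨p.map K₀.subtype, hcoef, r, ⟨hne, hr⟩, rfl⟩)))
    refine ⟨⟨r, hrS⟩, ?_⟩
    apply Subtype.ext
    have h1 : (p.map K₀.subtype).eval (K₀.subtype ⟨r, hrS⟩) = K₀.subtype (p.eval ⟨r, hrS⟩) :=
      Polynomial.eval_map_apply _ _
    have h2 : (p.map K₀.subtype).eval r = 0 := hr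
    have h3 : K₀.subtype (p.eval ⟨r, hrS⟩) = 0 := by
      rw [← h1]
      exact h2
    exact h3
  have hcount : Countable K₀ := by
    have hc : Countable S₀ := hS₀.to_subtype
    let f : K₀ → S₀ := fun a => ⟨sc (K := K) s a, a.2⟩
    refine Function.Injective.countable (f := f) fun a b hab => ?_
    exact Subtype.ext ((sc (K := K) s).injective (congrArg Subtype.val hab))
  have hcK : ∀ i j l, s.c i j l ∈ k₀ := fun i j l => by
    rw [← eb_mul s i j l]
    exact hcoord _ (S₀.mul_mem (heb i) (heb j)) l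
  have huK : ∀ i, s.u i ∈ k₀ := fun i => hcoord 1 S₀.one_mem i
  let s₀ : SC n k₀ :=
    { c := fun i j l => ⟨s.c i j l, hcK i j l⟩
      u := fun i => ⟨s.u i, huK i⟩
      one_mul := fun i l => by
        apply Subtype.ext
        have h := s.one_mul i l
        push_cast
        rw [h]
        split_ifs <;> rfl
      mul_one := fun i l => by
        apply Subtype.ext
        have h := s.mul_one i l
        push_cast
        rw [h]
        split_ifs <;> rfl
      assoc := fun i j t l => by
        apply Subtype.ext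
        have h := s.assoc i j t l
        push_cast
        exact h }
  let φ : K₀ →+* k₀ := ((algebraMap K k).comp K₀.subtype).codRestrict k₀ fun x => x.2
  have hφ : ∀ x : K₀, ((φ x : k₀) : k) = algebraMap K k (x : K) := fun x => rfl
  let : Algebra K₀ k₀ := φ.toAlgebra
  have hFG : (⊤ : IntermediateField K₀ k₀).FG := by
    refine ⟨t.attach.image (fun x => (⟨x.1, htk x.1 x.2⟩ : k₀)), ?_⟩
    rw [eq_top_iff]
    intro a _
    -- the image in `k` of the field generated by `t`
    let E := IntermediateField.adjoin K₀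
      ((t.attach.image (fun x => (⟨x.1, htk x.1 x.2⟩ : k₀)) : Finset k₀) : Set k₀)
    let T : Subfield k := E.toSubfield.map k₀.subtype
    have hT : ∀ x : k, x ∈ T ↔ ∃ y : k₀, y ∈ E ∧ (y : k) = x := fun x => Iff.rfl
    have hTc : ∀ c : K, c ∈ K₀ → algebraMap K k c ∈ T := fun c hc =>
      ⟨φ ⟨c, hc⟩, E.algebraMap_mem ⟨c, hc⟩, rfl⟩
    have hTt : ∀ x ∈ t, x ∈ T := by
      intro x hx
      refine ⟨⟨x, htk x hx⟩, IntermediateField.subset_adjoin _ _ ?_, rfl⟩
      rw [Finset.mem_coe, Finset.mem_image]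
      exact ⟨⟨x, hx⟩, Finset.mem_attach _ _, rfl⟩
    have hTp : ∀ p : MvPolynomial (t : Set k) K, (∀ m, p.coeff m ∈ K₀) →
        MvPolynomial.aeval (Subtype.val : ↥(t : Set k) → k) p ∈ T := by
      intro p hp
      rw [MvPolynomial.aeval_def, MvPolynomial.eval₂_eq]
      refine T.sum_mem fun d _ => T.mul_mem (hTc _ (hp d)) (T.prod_mem fun i _ => ?_)
      exact T.pow_mem (hTt _ i.2) _
    have ha : (a : k) ∈ T := by
      rw [hPQ a]
      exact T.div_mem (hTp _ (hPc a a.2)) (hTp _ (hQc a a.2))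
    obtain ⟨y, hy, hya⟩ := (hT _).1 ha
    have : y = a := Subtype.ext hya
    rw [← this]
    exact hy
  refine ⟨K₀, k₀, inferInstance, hcl', hcount, inferInstance, inferInstance, hFG, s₀, ⟨?_⟩⟩
  have hinv : ∀ y : Al s₀, (fun l => ((y l : k₀) : k) : Al s) ∈ S₀ := by
    intro y
    rw [al_expand s (fun l => ((y l : k₀) : k))]
    exact S₀.sum_mem fun l _ => S₀.mul_mem (y l).2 (heb l)
  let τ : S₀ → Al s₀ := fun x l => ⟨x.1 l, hcoord x.1 x.2 l⟩
  have hmul : ∀ x y : S₀, τ (x * y) = τ x * τ y := by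
    intro x y
    apply al_ext s₀
    intro l
    apply Subtype.ext
    have h1 := al_mul s x.1 y.1 l
    have h2 := al_mul s₀ (τ x) (τ y) l
    refine Eq.trans h1 (Eq.trans ?_ (congrArg Subtype.val h2).symm)
    push_cast
    rfl
  exact
    { toFun := τ
      invFun := fun y => ⟨fun l => ((y l : k₀) : k), hinv y⟩
      left_inv := fun x => rfl
      right_inv := fun y => rfl
      map_mul' := hmul
      map_add' := fun x y => rfl }

end Pool.Agent.H10.UG
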